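import Pool.Agent.H508.R.A10

/-!
# The Euler factors as polynomials, twisted by Dirichlet characters
-/

set_option autoImplicit false
set_option linter.unusedSectionVars false
set_option linter.style.haveILetI false

open Complex NumberField IsDedekindDomain

namespace Pool.Agent.H508.U

open Pool.Agent.K7.H70.EQ (HH avg frob_conj avg_pow avg_fin det_exp)
open Pool.Agent.Y696 (nK und0 card_nm)
open Pool.Agent.Y688 (RR wR w wR_coe HL)
open Pool.Agent.K7.H70.AW
open Pool.Agent.K7.H65.FP (Semi fx fx_one fx_mul z_case z_ne fx_inertia fx_frob toC' toC'_apply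
  toC_add toC_mul card_mod3)
open Pool.Agent.Y692.QS (toC Ei nr toC_normSq)
open Pool.Agent.H508.D
open Pool.Agent.H508.R
open scoped Classical Matrix

section
variable {K F : Type} [Field K] [NumberField K] [Field F] [NumberField F] [Algebra K F]
  {n : ℕ} {z : 𝓞 F}

/-- the reciprocal of the local factor, a polynomial in `t` -/
noncomputable def pl (A B : Gal(F/K) → Matrix (Fin n) (Fin n) ℂ) (x : Ei)
    (v : HeightOneSpectrum (𝓞 K)) (w : HeightOneSpectrum (𝓞 F)) (t : ℂ) : ℂ :=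
  if (3 : 𝓞 K) ∈ v.asIdeal then 1 else if nK v % 3 = 1 then
    Matrix.det (1 - (toC x * t) • mn A v w) * Matrix.det (1 - (toC' x * t) • mn B v w) else
    Matrix.det (1 + ((nK v : ℂ) * t ^ 2) • (mn A v w * mn B v w))

lemma pow_eq (v : HeightOneSpectrum (𝓞 K)) (s : ℂ) :
    (nK v : ℂ) ^ (1 - 2 * s) = (nK v : ℂ) * ((nK v : ℂ) ^ (-s)) ^ 2 := by
  have hn0 : (nK v : ℂ) ≠ 0 := Nat.cast_ne_zero.2 (nK_ne v)
  rw [sub_eq_add_neg, Complex.cpow_add _ _ hn0, Complex.cpow_one, ← mul_neg,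
    show (2 : ℂ) * -s = ((2 : ℕ) : ℂ) * -s by norm_num, Complex.cpow_nat_mul]

lemma fm_pl (A B : Gal(F/K) → Matrix (Fin n) (Fin n) ℂ) (x : Ei)
    (v : HeightOneSpectrum (𝓞 K)) (w : HeightOneSpectrum (𝓞 F)) (s : ℂ) :
    fm A B x v w s = (pl A B x v w ((nK v : ℂ) ^ (-s)))⁻¹ := by
  unfold fm pl
  rw [pow_eq]
  split_ifs
  · rw [inv_one]
  · rfl
  · rfl

lemma mn_smul {A A' : Gal(F/K) → Matrix (Fin n) (Fin n) ℂ} {v : HeightOneSpectrum (𝓞 K)}
    {w : HeightOneSpectrum (𝓞 F)} {c : ℂ} (h : ∀ σ, Frb v w σ → A' σ = c • A σ) :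
    mn A' v w = c • mn A v w := by
  have h1 : ∑ σ : {σ : Gal(F/K) // Frb v w σ}, A' σ =
      ∑ σ : {σ : Gal(F/K) // Frb v w σ}, c • A σ := Finset.sum_congr rfl fun σ _ => h _ σ.prop
  unfold mn
  rw [h1, ← Finset.smul_sum, smul_comm]

lemma pl_smul {A A' B B' : Gal(F/K) → Matrix (Fin n) (Fin n) ℂ} {x : Ei}
    {v : HeightOneSpectrum (𝓞 K)} {w : HeightOneSpectrum (𝓞 F)} {c : ℂ}
    (hA : ∀ σ, Frb v w σ → A' σ = c • A σ) (hB : ∀ σ, Frb v w σ → B' σ = c • B σ) (t : ℂ) :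
    pl A' B' x v w t = pl A B x v w (c * t) := by
  unfold pl
  rw [mn_smul hA, mn_smul hB]
  simp only [smul_smul, Matrix.smul_mul, Matrix.mul_smul]
  split_ifs
  · rfl
  · congr 4 <;> ring
  · congr 3
    ring

/-- a determinant as a polynomial -/
lemma det_poly (M : Matrix (Fin n) (Fin n) ℂ) :
    ∃ P : Polynomial ℂ, ∀ x : ℂ, P.eval x = (1 + x • M).det := by
  refine ⟨Matrix.charpolyRev (-M), fun x => ?_⟩
  unfold Matrix.charpolyRev
  rw [← Polynomial.coe_evalRingHom, RingHom.map_det]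
  congr 1
  ext i j
  rw [RingHom.mapMatrix_apply, Matrix.map_apply, Matrix.sub_apply, Matrix.add_apply,
    Matrix.smul_apply, Matrix.smul_apply, Matrix.map_apply, Matrix.neg_apply, map_sub,
    Matrix.one_apply, Matrix.one_apply, smul_eq_mul, smul_eq_mul, map_mul,
    Polynomial.coe_evalRingHom, Polynomial.eval_X, Polynomial.eval_C]
  split_ifs
  · rw [Polynomial.eval_one]
    ring
  · rw [Polynomial.eval_zero]
    ring

/-- the function is a polynomial -/
lemma pl_poly (A B : Gal(F/K) → Matrix (Fin n) (Fin n) ℂ) (x : Ei)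
    (v : HeightOneSpectrum (𝓞 K)) (w : HeightOneSpectrum (𝓞 F)) :
    ∃ P : Polynomial ℂ, ∀ t : ℂ, P.eval t = pl A B x v w t := by
  unfold pl
  by_cases h3 : (3 : 𝓞 K) ∈ v.asIdeal
  · exact ⟨1, fun t => by rw [if_pos h3, Polynomial.eval_one]⟩
  by_cases hq : nK v % 3 = 1
  · obtain ⟨P, hP⟩ := det_poly (-mn A v w)
    obtain ⟨Q, hQ⟩ := det_poly (-mn B v w)
    refine ⟨P.comp (Polynomial.C (toC x) * Polynomial.X) *
      Q.comp (Polynomial.C (toC' x) * Polynomial.X), fun t => ?_⟩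
    rw [if_neg h3, if_pos hq, Polynomial.eval_mul, Polynomial.eval_comp, Polynomial.eval_comp, hP, hQ]
    simp only [Polynomial.eval_mul, Polynomial.eval_C, Polynomial.eval_X, smul_neg]
    rw [← sub_eq_add_neg, ← sub_eq_add_neg]
  · obtain ⟨P, hP⟩ := det_poly (mn A v w * mn B v w)
    refine ⟨P.comp (Polynomial.C (nK v : ℂ) * Polynomial.X ^ 2), fun t => ?_⟩
    rw [if_neg h3, if_neg hq, Polynomial.eval_comp, hP]
    simp only [Polynomial.eval_mul, Polynomial.eval_C, Polynomial.eval_X, Polynomial.eval_pow]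

/-- the function of `s` is entire -/
lemma pl_diff (A B : Gal(F/K) → Matrix (Fin n) (Fin n) ℂ) (x : Ei)
    (v : HeightOneSpectrum (𝓞 K)) (w : HeightOneSpectrum (𝓞 F)) (c : ℂ) :
    Differentiable ℂ (fun s : ℂ => pl A B x v w (c * (nK v : ℂ) ^ (-s))) := by
  obtain ⟨P, hP⟩ := pl_poly A B x v w
  have h1 : (fun s : ℂ => pl A B x v w (c * (nK v : ℂ) ^ (-s))) =
      fun s : ℂ => P.eval (c * (nK v : ℂ) ^ (-s)) := by
    funext s
    rw [hP]
  rw [h1]
  have hn0 : (nK v : ℂ) ≠ 0 := Nat.cast_ne_zero.2 (nK_ne v)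
  refine P.differentiable.comp ?_
  refine (differentiable_const c).mul ?_
  exact (differentiable_id.neg).const_cpow (Or.inl hn0)

variable [IsGalois K F]

/-- **the values of the polynomial are not zero** in the circle -/
theorem pl_ne (hz : z * z = -1 - z) {A B : Gal(F/K) → Matrix (Fin n) (Fin n) ℂ}
    (S : SemiM (fx z) A B) {x : Ei} {v : HeightOneSpectrum (𝓞 K)} {w : HeightOneSpectrum (𝓞 F)}
    (hw : und0 K w = v)
    (hx : (3 : 𝓞 K) ∉ v.asIdeal → nK v % 3 = 1 → nr x = nK v) {t : ℂ} (ht : nK v * ‖t‖ ^ 2 < 1) :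
    pl A B x v w t ≠ 0 := by
  have hp := w.isPrime
  obtain ⟨φ, hφ'⟩ := exists_frob' (K := K) w
  have hφ : ∀ y : 𝓞 F, φ • y - y ^ nK v ∈ w.asIdeal := fun y => by
    have := hφ' y
    rwa [hw] at this
  have hφI := frob_conj (nK_ne v) hφ
  unfold pl
  by_cases h3 : (3 : 𝓞 K) ∈ v.asIdeal
  · rw [if_pos h3]
    exact one_ne_zero
  rw [if_neg h3]
  have h3F : (3 : 𝓞 F) ∉ w.asIdeal := fun h => h3 (by
    rw [← hw]
    exact Pool.Agent.K7.H70.SE.mem_und0.2 h)
  have hI := fx_inertia (K := K) hz h3F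
  by_cases hq : nK v % 3 = 1
  · rw [if_pos hq]
    have hx1 := hx h3 hq
    have hnx : ‖toC x‖ ^ 2 = nK v := by
      rw [← Complex.normSq_eq_norm_sq, toC_normSq, hx1]
      exact_mod_cast rfl
    have hlt : ‖toC x * t‖ < 1 := by
      rw [norm_mul]
      by_contra hcon
      push Not at hcon
      have h1 : 1 ≤ (‖toC x‖ * ‖t‖) ^ 2 := one_le_pow₀ hcon
      rw [mul_pow, hnx] at h1
      linarith
    have hlt' : ‖toC' x * t‖ < 1 := by
      rw [norm_mul, toC'_apply, RCLike.norm_conj, ← norm_mul]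
      exact hlt
    have hfφ : fx z φ := (fx_frob hz h3F (hφ z)).1 hq
    obtain ⟨L, -, he⟩ := loc_two S.semi hI hfφ hφI hlt hlt'
    rw [mn_eq A hφ, mn_eq B hφ, det_lin1, det_lin1] at he
    intro h0
    rw [h0, inv_zero] at he
    exact Complex.exp_ne_zero _ he
  · rw [if_neg hq]
    have hq2 : nK v % 3 = 2 := by
      have h5 := card_mod3 h3
      rw [card_nm] at h5
      exact h5.resolve_left hq
    have hnφ : ¬ fx z φ := (fx_frob hz h3F (hφ z)).2 hq2
    have hlt : ‖-((nK v : ℂ) * t ^ 2)‖ < 1 := by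
      rw [norm_neg, norm_mul, norm_pow, Complex.norm_natCast]
      exact ht
    obtain ⟨L, -, he⟩ := S.semi.loc_neg hI hnφ hφI hlt
      (t := fun m => if 2 ∣ m + 1 then (-((nK v : ℂ) * t ^ 2)) ^ ((m + 1) / 2) /
        (((m + 1) / 2 : ℕ) : ℂ) else 0)
      (fun k => if_neg (by omega)) (fun k => by
        show (if 2 ∣ 2 * k + 1 + 1 then _ else _) = _
        rw [if_pos (by omega), show (2 * k + 1 + 1) / 2 = k + 1 by omega]
        push_cast
        rfl)
    have h1 := mn_eq A hφ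
    have h2 := mn_eq B hφ
    have h5 : ∀ (N N' : Matrix (Fin n) (Fin n) ℂ) (t : ℂ),
        LinearMap.det ((1 : Module.End ℂ (Fin n → ℂ)) - (-t) •
          (Matrix.toLin' Nᵀ * Matrix.toLin' N'ᵀ)) = Matrix.det (1 + t • (N * N')) := fun N N' t => by
      rw [← det_lin2]
      congr 1
      refine LinearMap.ext fun y => ?_
      rw [LinearMap.sub_apply, LinearMap.add_apply, LinearMap.smul_apply, LinearMap.smul_apply,
        neg_smul, sub_neg_eq_add]
    unfold oav at h1 h2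
    rw [h1, h2] at he
    intro h0
    refine Complex.exp_ne_zero L (he.trans ?_)
    have h6 := h5 (mn A v w) (mn B v w) ((nK v : ℂ) * t ^ 2)
    rw [h0] at h6
    exact (congrArg (fun y : ℂ => y⁻¹) h6).trans inv_zero

/-! ### the automorphisms -/

lemma mn_map (σ : ℂ →+* ℂ) (A : Gal(F/K) → Matrix (Fin n) (Fin n) ℂ) (v : HeightOneSpectrum (𝓞 K))
    (w : HeightOneSpectrum (𝓞 F)) :
    mn (fun g => (A g).map σ) v w = (mn A v w).map σ := by
  unfold mn
  ext i j
  rw [Matrix.map_apply, Matrix.smul_apply, Matrix.smul_apply, Matrix.sum_apply, Matrix.sum_apply,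
    smul_eq_mul, smul_eq_mul, map_mul, map_inv₀, map_natCast, map_sum]
  rfl

lemma det_one_sub_map (σ : ℂ →+* ℂ) (t : ℂ) (N : Matrix (Fin n) (Fin n) ℂ) :
    σ (Matrix.det (1 - t • N)) = Matrix.det (1 - σ t • N.map σ) := by
  rw [σ.map_det]
  congr 1
  ext i j
  rw [RingHom.mapMatrix_apply, Matrix.map_apply, Matrix.sub_apply, Matrix.sub_apply, map_sub,
    Matrix.smul_apply, Matrix.smul_apply, Matrix.map_apply, smul_eq_mul, smul_eq_mul, map_mul,
    Matrix.one_apply]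
  split_ifs
  · rw [map_one]
  · rw [map_zero]

lemma det_one_add_map (σ : ℂ →+* ℂ) (t : ℂ) (N : Matrix (Fin n) (Fin n) ℂ) :
    σ (Matrix.det (1 + t • N)) = Matrix.det (1 + σ t • N.map σ) := by
  rw [σ.map_det]
  congr 1
  ext i j
  rw [RingHom.mapMatrix_apply, Matrix.map_apply, Matrix.add_apply, Matrix.add_apply, map_add,
    Matrix.smul_apply, Matrix.smul_apply, Matrix.map_apply, smul_eq_mul, smul_eq_mul, map_mul,
    Matrix.one_apply]
  split_ifs
  · rw [map_one]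
  · rw [map_zero]

/-- an automorphism which fixes the cube roots of unity -/
lemma pl_fix {σ : ℂ ≃+* ℂ} (hw : σ w = w) (A B : Gal(F/K) → Matrix (Fin n) (Fin n) ℂ) (x : Ei)
    (v : HeightOneSpectrum (𝓞 K)) (W : HeightOneSpectrum (𝓞 F)) (t : ℂ) :
    σ (pl A B x v W t) = pl (fun g => (A g).map σ) (fun g => (B g).map σ) x v W (σ t) := by
  have hσw : (σ : ℂ →+* ℂ) w = w := hw
  have hx : (σ : ℂ →+* ℂ) (toC x) = toC x := fix_toC hw x
  have hcw : (σ : ℂ →+* ℂ) ((starRingEnd ℂ) w) = (starRingEnd ℂ) w := by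
    rw [Pool.Agent.Y688.conj_w, map_sub, map_neg, map_one, hσw]
  have hx' : (σ : ℂ →+* ℂ) (toC' x) = toC' x := by
    rw [toC'_apply, Pool.Agent.Y692.QS.toC_apply, wC_eq, map_add, map_mul, map_intCast, map_intCast,
      map_add, map_mul, map_intCast, map_intCast, hcw]
  have h0 : ∀ y, σ y = (σ : ℂ →+* ℂ) y := fun _ => rfl
  unfold pl
  rw [h0, h0]
  have e1 : mn (fun g => (A g).map σ) v W = (mn A v W).map (σ : ℂ →+* ℂ) :=
    mn_map (σ : ℂ →+* ℂ) A v W
  have e2 : mn (fun g => (B g).map σ) v W = (mn B v W).map (σ : ℂ →+* ℂ) :=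
    mn_map (σ : ℂ →+* ℂ) B v W
  rw [e1, e2]
  split_ifs
  · exact map_one _
  · rw [map_mul, det_one_sub_map, det_one_sub_map, map_mul, map_mul, hx, hx']
  · rw [det_one_add_map, Matrix.map_mul, map_mul, map_pow, map_natCast]

/-- the complex conjugation -/
lemma pl_conj (A B : Gal(F/K) → Matrix (Fin n) (Fin n) ℂ) (x : Ei)
    (v : HeightOneSpectrum (𝓞 K)) (W : HeightOneSpectrum (𝓞 F)) (t : ℂ) :
    (starRingEnd ℂ) (pl A B x v W t) = pl (fun g => (B g).map (starRingEnd ℂ))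
      (fun g => (A g).map (starRingEnd ℂ)) x v W ((starRingEnd ℂ) t) := by
  unfold pl
  rw [mn_map, mn_map]
  split_ifs
  · exact map_one _
  · rw [map_mul, det_one_sub_map, det_one_sub_map, map_mul, map_mul, toC'_apply, Complex.conj_conj,
      mul_comm (Matrix.det _)]
  · rw [det_one_add_map, Matrix.map_mul, map_mul, map_pow, map_natCast, ← Matrix.smul_mul,
      Matrix.det_one_add_mul_comm, Matrix.mul_smul]

end

end Pool.Agent.H508.U
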