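import Pool.Agent.H508.U.A1

/-!
# The characters of the Galois group and the Dirichlet characters, Gauss sums
-/

set_option autoImplicit false
set_option linter.unusedSectionVars false
set_option linter.style.haveILetI false

open Complex NumberField IsDedekindDomain

namespace Pool.Agent.H508.U

open Pool.Agent.Y696 (nK und0 card_nm)
open Pool.Agent.Y688 (RR wR w wR_coe HL)
open Pool.Agent.K7.H70.AW
open Pool.Agent.H508.D
open Pool.Agent.H508.R
open ZMod (stdAddChar)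
open scoped Classical

section roots
variable {f : ℕ} [NeZero f]

lemma std_pow (b : ZMod f) : (stdAddChar b : ℂ) = (stdAddChar (1 : ZMod f)) ^ b.val := by
  rw [← AddChar.map_nsmul_eq_pow, nsmul_eq_mul, mul_one, ZMod.natCast_zmod_val]

lemma std_prim : IsPrimitiveRoot (stdAddChar (1 : ZMod f) : ℂ) f := by
  have h1 := Complex.isPrimitiveRoot_exp f (NeZero.ne f)
  have h2 := ZMod.stdAddChar_coe (N := f) 1
  rw [Int.cast_one, Int.cast_one, mul_one] at h2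
  rwa [h2]

/-- an automorphism multiplies the exponents -/
lemma exists_shift (σ : ℂ ≃+* ℂ) : ∃ a : (ZMod f)ˣ, ∀ b : ZMod f,
    σ (stdAddChar b) = stdAddChar ((a : ZMod f) * b) := by
  have h1 : IsPrimitiveRoot (σ (stdAddChar (1 : ZMod f))) f :=
    (std_prim (f := f)).map_of_injective σ.injective
  obtain ⟨i, hi, hc, he⟩ := ((std_prim (f := f)).isPrimitiveRoot_iff).1 h1
  refine ⟨ZMod.unitOfCoprime i hc, fun b => ?_⟩
  rw [std_pow b, map_pow, ← he, ← pow_mul, ← AddChar.map_nsmul_eq_pow, nsmul_eq_mul, mul_one]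
  congr 1
  rw [Nat.cast_mul, ZMod.natCast_zmod_val]
  rfl

lemma conj_shift (b : ZMod f) :
    (starRingEnd ℂ) (stdAddChar b) = stdAddChar (((-1 : (ZMod f)ˣ) : ZMod f) * b) := by
  rw [Units.val_neg, Units.val_one, neg_one_mul, AddChar.map_neg_eq_inv]
  rw [Complex.inv_def]
  have h1 : Complex.normSq (stdAddChar b : ℂ) = 1 := by
    rw [Complex.normSq_eq_norm_sq, AddChar.norm_apply, one_pow]
  rw [h1]
  simp

/-- **the Gauss sum and the automorphisms** -/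
theorem gauss_aut (χ : DirichletCharacter ℂ f) {σ : ℂ ≃+* ℂ} {a : (ZMod f)ˣ}
    (ha : ∀ b : ZMod f, σ (stdAddChar b) = stdAddChar ((a : ZMod f) * b)) :
    σ (gaussSum χ⁻¹ stdAddChar) = σ (χ (a : ZMod f)) *
      gaussSum (χ.ringHomComp (σ : ℂ →+* ℂ))⁻¹ stdAddChar := by
  have h1 : σ (gaussSum χ⁻¹ stdAddChar) =
      gaussSum (χ⁻¹.ringHomComp (σ : ℂ →+* ℂ)) (AddChar.mulShift stdAddChar (a : ZMod f)) := by
    unfold gaussSum
    rw [map_sum]
    refine Finset.sum_congr rfl fun b _ => ?_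
    rw [map_mul, ha, AddChar.mulShift_apply, MulChar.ringHomComp_apply]
    rfl
  have h2 := gaussSum_mulShift (χ⁻¹.ringHomComp (σ : ℂ →+* ℂ)) (stdAddChar (N := f)) a
  rw [MulChar.ringHomComp_inv, ← h2, h1, ← mul_assoc]
  have h3 : σ (χ (a : ZMod f)) * (χ⁻¹.ringHomComp (σ : ℂ →+* ℂ)) (a : ZMod f) = 1 := by
    rw [MulChar.ringHomComp_apply]
    show σ (χ (a : ZMod f)) * σ (χ⁻¹ (a : ZMod f)) = 1
    rw [← map_mul, ← MulChar.mul_apply, mul_inv_cancel, MulChar.one_apply_coe, map_one]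
  rw [h3, one_mul]

lemma unit_val {Γ : Type} [LinearOrderedCommGroupWithZero Γ] {v : Valuation ℂ Γ} {η : ℂ}
    (hη : η ^ f = 1) : v η = 1 := by
  have h1 : v η ^ f = 1 := by rw [← map_pow, hη, map_one]
  exact (pow_eq_one_iff_of_nonneg zero_le (NeZero.ne f)).1 h1

/-- different roots of unity are different modulo a place -/
lemma root_sep {Γ : Type} [LinearOrderedCommGroupWithZero Γ] {v : Valuation ℂ Γ} {p : ℕ}
    (hp : p.Prime) (hv : v (p : ℂ) < 1) (hpf : ¬ p ∣ f) {η : ℂ} (hη : η ^ f = 1)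
    (h : v (η - 1) < 1) : η = 1 := by
  by_contra hne
  have hv1 : v η = 1 := unit_val hη
  have h1 : ∀ i : ℕ, v (η ^ i - 1) < 1 := by
    intro i
    induction i with
    | zero => rw [pow_zero, sub_self, map_zero]; exact zero_lt_one
    | succ i ih =>
      have e : η ^ (i + 1) - 1 = η * (η ^ i - 1) + (η - 1) := by ring
      rw [e]
      refine v.map_add_lt ?_ h
      rw [map_mul, hv1, one_mul]
      exact ih
  have h2 : v (∑ i ∈ Finset.range f, (η ^ i - 1)) < 1 :=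
    v.map_sum_lt one_ne_zero fun i _ => h1 i
  have h3 : ∑ i ∈ Finset.range f, (η ^ i - 1) = -((f : ℤ) : ℂ) := by
    rw [Finset.sum_sub_distrib, Finset.sum_const, Finset.card_range, nsmul_eq_mul, mul_one]
    have h4 : (∑ i ∈ Finset.range f, η ^ i) * (η - 1) = η ^ f - 1 := geom_sum_mul η f
    rw [hη, sub_self] at h4
    rw [(mul_eq_zero.1 h4).resolve_right (sub_ne_zero.2 hne)]
    push_cast
    ring
  rw [h3, Valuation.map_neg, v_unit hp hv (fun hd => hpf (Int.natCast_dvd_natCast.1 hd))] at h2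
  exact lt_irrefl _ h2

end roots

section
variable {F : Type} [Field F] [NumberField F] {f : ℕ}

/-- the character `ψ` of the Galois group and the Dirichlet character `χ` correspond to each other -/
structure Cor (ψ : Gal(F/ℚ) →* ℂˣ) (χ : DirichletCharacter ℂ f) : Prop where
  fr : ∀ (v : HeightOneSpectrum (𝓞 ℚ)) (W : HeightOneSpectrum (𝓞 F)), und0 ℚ W = v →
    (f : 𝓞 ℚ) ∉ v.asIdeal → ∀ σ, Frb v W σ → ((ψ σ : ℂˣ) : ℂ) = χ (nK v : ZMod f)

/-- the conjugate character -/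
noncomputable def cψ (σ : ℂ →+* ℂ) (ψ : Gal(F/ℚ) →* ℂˣ) : Gal(F/ℚ) →* ℂˣ :=
  (Units.map (σ : ℂ →* ℂ)).comp ψ

lemma cψ_coe (σ : ℂ →+* ℂ) (ψ : Gal(F/ℚ) →* ℂˣ) (g : Gal(F/ℚ)) :
    ((cψ σ ψ g : ℂˣ) : ℂ) = σ ((ψ g : ℂˣ) : ℂ) := rfl

lemma Cor.comp {ψ : Gal(F/ℚ) →* ℂˣ} {χ : DirichletCharacter ℂ f} (h : Cor ψ χ) (σ : ℂ →+* ℂ) :
    Cor (cψ σ ψ) (χ.ringHomComp σ) where
  fr v W hW hf g hg := by
    rw [cψ_coe, h.fr v W hW hf g hg]
    rfl

lemma nK_mem (v : HeightOneSpectrum (𝓞 ℚ)) : (nK v : 𝓞 ℚ) ∈ v.asIdeal := Ideal.absNorm_mem _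

lemma mem_dvd (v : HeightOneSpectrum (𝓞 ℚ)) (m : ℕ) : (m : 𝓞 ℚ) ∈ v.asIdeal ↔ nK v ∣ m := by
  constructor
  · intro h
    by_contra hcon
    have hc : Nat.Coprime (nK v) m := (Nat.Prime.coprime_iff_not_dvd (nK_rat v)).2 hcon
    obtain ⟨a, b, hab⟩ := Nat.isCoprime_iff_coprime.2 hc
    have h1 : (1 : 𝓞 ℚ) ∈ v.asIdeal := by
      have h2 := congrArg (Int.cast : ℤ → 𝓞 ℚ) hab
      push_cast at h2
      rw [← h2]
      exact Ideal.add_mem _ (Ideal.mul_mem_left _ _ (nK_mem v)) (Ideal.mul_mem_left _ _ h)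
    exact v.isPrime.ne_top ((Ideal.eq_top_iff_one _).2 h1)
  · rintro ⟨c, rfl⟩
    push_cast
    exact Ideal.mul_mem_right _ _ (nK_mem v)

/-- **the value of the character in terms of the action on the roots of unity** -/
theorem Cor.gal [NeZero f] {ψ : Gal(F/ℚ) →* ℂˣ} {χ : DirichletCharacter ℂ f} (h : Cor ψ χ)
    {e : F →+* ℂ} {σ : ℂ ≃+* ℂ} {g : Gal(F/ℚ)} (hg : ∀ x, e (g x) = σ (e x)) {a : (ZMod f)ˣ}
    (ha : ∀ b : ZMod f, σ (stdAddChar b) = stdAddChar ((a : ZMod f) * b)) :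
    ((ψ g : ℂˣ) : ℂ) = χ (a : ZMod f) := by
  obtain ⟨ζ, hζ⟩ : ∃ ζ : ℂ, ζ = stdAddChar (1 : ZMod f) := ⟨_, rfl⟩
  have hζf : ζ ^ f = 1 := by rw [hζ]; exact (std_prim (f := f)).pow_eq_one
  have hζi : IsIntegral ℤ ζ := ⟨Polynomial.X ^ f - 1, Polynomial.monic_X_pow_sub_C 1 (NeZero.ne f), by
    simp [hζf]⟩
  let K₁ : IntermediateField ℚ ℂ := e.toRatAlgHom.fieldRange
  have hfd1 : FiniteDimensional ℚ K₁ :=
    Module.Finite.equiv (AlgEquiv.ofInjectiveField e.toRatAlgHom).toLinearEquiv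
  let K₂ : IntermediateField ℚ ℂ := IntermediateField.adjoin ℚ {ζ}
  have hζq : IsIntegral ℚ ζ := hζi.tower_top
  have hfd2 : FiniteDimensional ℚ K₂ := IntermediateField.adjoin.finiteDimensional hζq
  let K₀ : IntermediateField ℚ ℂ := K₁ ⊔ K₂
  have hfd : FiniteDimensional ℚ K₀ := IntermediateField.finiteDimensional_sup K₁ K₂
  obtain ⟨p, hp, hpf, Γ, _, v, hv, hfr⟩ := exists_val σ K₀ f
  obtain ⟨W, hW⟩ := exists_W v e hp hv
  have hpW : (p : 𝓞 F) ∈ W.asIdeal := by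
    rw [hW]
    push_cast
    rw [map_natCast]
    exact hv
  have hnp : nK (und0 ℚ W) = p := by
    have h1 : (p : 𝓞 ℚ) ∈ (und0 ℚ W).asIdeal := by
      show algebraMap (𝓞 ℚ) (𝓞 F) (p : 𝓞 ℚ) ∈ W.asIdeal
      rw [map_natCast]
      exact hpW
    rw [mem_dvd] at h1
    exact (Nat.prime_dvd_prime_iff_eq (nK_rat _) hp).1 h1
  have hpnf : ¬ p ∣ f := fun hd => by
    have := Nat.le_of_dvd (Nat.pos_of_ne_zero (NeZero.ne f)) hd
    omega
  have hF : Frb (und0 ℚ W) W g := fun x => by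
    rw [hnp, hW]
    have h1 : ((g • x - x ^ p : 𝓞 F) : F) = g (x : F) - (x : F) ^ p := by
      push_cast
      rfl
    rw [h1, map_sub, map_pow, hg]
    exact hfr _ (le_sup_left (a := K₁) (b := K₂) ⟨(x : F), rfl⟩) (x.2.map e.toIntAlgHom)
  have h1 := h.fr (und0 ℚ W) W rfl (by rw [mem_dvd, hnp]; exact hpnf) g hF
  rw [h1, hnp]
  -- the root of unity
  have h2 : v (σ ζ - ζ ^ p) < 1 := hfr ζ (le_sup_right (a := K₁) (b := K₂)
    (IntermediateField.mem_adjoin_simple_self ℚ ζ)) hζi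
  have h3 : σ ζ = ζ ^ (a : ZMod f).val := by
    rw [hζ, ha, mul_one, std_pow]
  have hζ0 : ζ ≠ 0 := by
    intro h0
    rw [h0, zero_pow (NeZero.ne f)] at hζf
    exact zero_ne_one hζf
  have hη : (ζ ^ (a : ZMod f).val / ζ ^ p) ^ f = 1 := by
    rw [div_pow, ← pow_mul, ← pow_mul, mul_comm, mul_comm p, pow_mul, pow_mul, hζf, one_pow, one_pow,
      div_one]
  have hvζ : v (ζ ^ p) = 1 := by
    rw [map_pow, unit_val hζf, one_pow]
  have h4 : v (ζ ^ (a : ZMod f).val / ζ ^ p - 1) < 1 := by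
    have e1 : ζ ^ (a : ZMod f).val / ζ ^ p - 1 = (σ ζ - ζ ^ p) / ζ ^ p := by
      rw [h3]
      field_simp
    rw [e1, map_div₀, hvζ, div_one]
    exact h2
  have h5 := root_sep hp hv hpnf hη h4
  rw [div_eq_one_iff_eq (pow_ne_zero _ hζ0)] at h5
  have h6 : (stdAddChar (((a : ZMod f).val : ℕ) : ZMod f) : ℂ) = stdAddChar ((p : ℕ) : ZMod f) := by
    have h7 : ∀ m : ℕ, (stdAddChar ((m : ℕ) : ZMod f) : ℂ) = ζ ^ m := fun m => by
      rw [hζ, ← AddChar.map_nsmul_eq_pow, nsmul_eq_mul, mul_one]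
    rw [h7, h7, h5]
  have h8 := ZMod.injective_stdAddChar h6
  rw [ZMod.natCast_zmod_val] at h8
  rw [h8]

end

end Pool.Agent.H508.U
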