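import Pool.Agent.H508.U.A2

/-!
# The twisted values at one, the periods and the Gauss sums
-/

set_option autoImplicit false
set_option linter.unusedSectionVars false
set_option linter.style.haveILetI false

open Complex NumberField IsDedekindDomain

namespace Pool.Agent.H508.U

open Pool.Agent.K7.H70.EQ (HH)
open Pool.Agent.K7.H70.SE (GoodG)
open Pool.Agent.Y696 (nK und0)
open Pool.Agent.Y688 (RR wR w wR_coe HL)
open Pool.Agent.K7.H70.AW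
open Pool.Agent.K7.H70.TW (Fam)
open Pool.Agent.K7.H65.FP (fx toC' toC'_apply galE galE_pos galE_neg)
open Pool.Agent.Y692.QS (toC Ei nr toC_normSq toC_apply hom hom_apply wC)
open IntermediateField (fixedField)
open Pool.Agent.H508.D
open Pool.Agent.H508.R
open ZMod (stdAddChar)
open scoped Classical Matrix

section
variable {F L : Type} [Field F] [NumberField F] [IsGalois ℚ F] [Field L] [NumberField L]
  [Algebra F L] {z : 𝓞 F} {n : ℕ} {c : Gal(F/ℚ) → Matrix (Fin n) (Fin n) Ei}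
  {wo : HeightOneSpectrum (𝓞 ℚ) → HeightOneSpectrum (𝓞 F)}

/-- the twisted families -/
noncomputable def tA (c : Gal(F/ℚ) → Matrix (Fin n) (Fin n) Ei) (ψ : Gal(F/ℚ) →* ℂˣ) :
    Gal(F/ℚ) → Matrix (Fin n) (Fin n) ℂ := fun σ => ((ψ σ : ℂˣ) : ℂ) • (c σ).map toC

noncomputable def tB (c : Gal(F/ℚ) → Matrix (Fin n) (Fin n) Ei) (ψ : Gal(F/ℚ) →* ℂˣ) :
    Gal(F/ℚ) → Matrix (Fin n) (Fin n) ℂ := fun σ => ((ψ σ : ℂˣ) : ℂ) • (c σ).map toC'

lemma tS (hz : z * z = -1 - z) (hc : Coc z c) (ψ : Gal(F/ℚ) →* ℂˣ) :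
    SemiM (fx z) (tA c ψ) (tB c ψ) := (hc.semiM hz).twist ψ

/-- the value at one -/
noncomputable def Yv (ι : RR →+* 𝓞 (fixedField (CC z)))
    (wo : HeightOneSpectrum (𝓞 ℚ) → HeightOneSpectrum (𝓞 F))
    (c : Gal(F/ℚ) → Matrix (Fin n) (Fin n) Ei) (ψ : Gal(F/ℚ) →* ℂˣ) : ℂ := yt ι wo (tA c ψ)

lemma tA_fix {σ : ℂ ≃+* ℂ} (hw : σ w = w) (ψ : Gal(F/ℚ) →* ℂˣ) :
    (fun g => (tA c ψ g).map σ) = tA c (cψ (σ : ℂ →+* ℂ) ψ) := by
  funext g
  ext i j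
  show σ (((ψ g : ℂˣ) : ℂ) * toC (c g i j)) = σ ((ψ g : ℂˣ) : ℂ) * toC (c g i j)
  rw [map_mul, fix_toC hw]

lemma fix_toC' {σ : ℂ ≃+* ℂ} (hw : σ w = w) (x : Ei) : σ (toC' x) = toC' x := by
  have hcw : σ ((starRingEnd ℂ) w) = (starRingEnd ℂ) w := by
    rw [Pool.Agent.Y688.conj_w, map_sub, map_neg, map_one, hw]
  rw [toC'_apply, toC_apply, wC_eq, map_add, map_mul, map_intCast, map_intCast,
      map_add, map_mul, map_intCast, map_intCast, hcw]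

lemma tB_fix {σ : ℂ ≃+* ℂ} (hw : σ w = w) (ψ : Gal(F/ℚ) →* ℂˣ) :
    (fun g => (tB c ψ g).map σ) = tB c (cψ (σ : ℂ →+* ℂ) ψ) := by
  funext g
  ext i j
  show σ (((ψ g : ℂˣ) : ℂ) * toC' (c g i j)) = σ ((ψ g : ℂˣ) : ℂ) * toC' (c g i j)
  rw [map_mul, fix_toC' hw]

lemma tA_conj (ψ : Gal(F/ℚ) →* ℂˣ) (g : Gal(F/ℚ)) :
    tA c (cψ (starRingEnd ℂ) ψ) g = (tB c ψ g).map (starRingEnd ℂ) := by
  ext i j
  show (starRingEnd ℂ) ((ψ g : ℂˣ) : ℂ) * toC (c g i j) =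
    (starRingEnd ℂ) (((ψ g : ℂˣ) : ℂ) * toC' (c g i j))
  rw [map_mul, toC'_apply, Complex.conj_conj]

lemma tB_conj (ψ : Gal(F/ℚ) →* ℂˣ) (g : Gal(F/ℚ)) :
    tB c (cψ (starRingEnd ℂ) ψ) g = (tA c ψ g).map (starRingEnd ℂ) := by
  ext i j
  show (starRingEnd ℂ) ((ψ g : ℂˣ) : ℂ) * toC' (c g i j) =
    (starRingEnd ℂ) (((ψ g : ℂˣ) : ℂ) * toC (c g i j))
  rw [map_mul, toC'_apply]

lemma Yv_conj (hf : Fam L) (hr : Rays L) (hQ : GoodG ℚ) (hz : z * z = -1 - z)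
    {ι : RR →+* 𝓞 (fixedField (CC z))}
    (hι : algebraMap (𝓞 (fixedField (CC z))) (𝓞 F) (ι wR) = -1 - z)
    (hwo : ∀ v, und0 ℚ (wo v) = v) (hc : Coc z c) {x : HeightOneSpectrum (𝓞 ℚ) → Ei}
    (hx : Frd z wo x) (ψ : Gal(F/ℚ) →* ℂˣ) :
    (starRingEnd ℂ) (Yv ι wo c ψ) = Yv ι wo c (cψ (starRingEnd ℂ) ψ) :=
  mat_conj hf hr hQ hz hι hwo (tS hz hc ψ) (tS hz hc (cψ (starRingEnd ℂ) ψ)) (tA_conj ψ)
    (tB_conj ψ) hx

lemma Yv_eqv (hf : Fam L) (hr : Rays L) (hz : z * z = -1 - z)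
    {ι : RR →+* 𝓞 (fixedField (CC z))}
    (hι : algebraMap (𝓞 (fixedField (CC z))) (𝓞 F) (ι wR) = -1 - z) (hc : Coc z c)
    {L' : PeriodPair} {Ω : ℂ} (hL : HL L' Ω) {σ : ℂ ≃+* ℂ} (hw : σ w = w) {e : F →+* ℂ}
    (he : e z = (starRingEnd ℂ) w) {g : Gal(F/ℚ)} (hg : ∀ y, e (g y) = σ (e y))
    (ψ : Gal(F/ℚ) →* ℂˣ) :
    Yv ι wo c (cψ (σ : ℂ →+* ℂ) ψ) / Ω ^ n = σ ((ψ g : ℂˣ) : ℂ) ^ n * toC (c g).det *
      σ (Yv ι wo c ψ / Ω ^ n) := by
  have h1 := mat_eqv (wo := wo) hf hr hz hι (tS hz hc ψ) hL hw he hg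
  rw [tA_fix hw] at h1
  have h2 : (tA c ψ g).det = ((ψ g : ℂˣ) : ℂ) ^ n * toC (c g).det := by
    unfold tA
    rw [Matrix.det_smul, Fintype.card_fin]
    congr 1
    exact (toC.map_det (c g)).symm
  rw [h2, map_mul, map_pow, fix_toC hw] at h1
  exact h1

/-! ### the periods -/

section per
variable {e : F →+* ℂ} {k : Gal(F/ℚ)} {B : Matrix (Fin n) (Fin n) F}
  {H : Matrix (Fin n) (Fin n) ℂ} {L' : PeriodPair} {Ω : ℂ}

lemma lie_act (hz : (z : F) * z = -1 - z) (hB : LieB hz c B) (e : F →+* ℂ) (g : Gal(F/ℚ)) :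
    e (hom (z : F) hz (c g).det) * e (g B.det) = e B.det := by
  have h1 := congrArg Matrix.det (hB.inv g)
  rw [Matrix.det_mul] at h1
  have h2 : ((c g).map (hom (z : F) hz)).det = hom (z : F) hz (c g).det :=
    ((hom (z : F) hz).map_det (c g)).symm
  have h3 : (B.map g).det = g B.det := ((g : F →+* F).map_det B).symm
  rw [h2, h3] at h1
  have h4 := congrArg e h1
  rwa [map_mul] at h4

lemma bet_act (hz : (z : F) * z = -1 - z) (hH : BetB L' hz c e k H) :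
    e (hom (z : F) hz (c k).det) * (starRingEnd ℂ) H.det = H.det := by
  have h1 := congrArg Matrix.det hH.inv
  rw [Matrix.det_mul, det_map_conj] at h1
  have h2 : ((c k).map (e.comp (hom (z : F) hz))).det = e.comp (hom (z : F) hz) (c k).det :=
    ((e.comp (hom (z : F) hz)).map_det (c k)).symm
  rw [h2] at h1
  exact h1

/-- the period is real -/
lemma q_real (hz : z * z = -1 - z) (hc : Coc z c) (hk : ∀ y, e (k y) = (starRingEnd ℂ) (e y))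
    (hB : LieB (coe_z hz) c B) (hH : BetB L' (coe_z hz) c e k H) :
    (starRingEnd ℂ) (e B.det / H.det) = e B.det / H.det := by
  have h1 := lie_act (coe_z hz) hB e k
  have h2 := bet_act (coe_z hz) hH
  rw [hk] at h1
  have hH0 : H.det ≠ 0 := hH.unit.ne_zero
  have hu0 : e (hom (z : F) (coe_z hz) (c k).det) ≠ 0 := fun h0 => by
    rw [h0, zero_mul] at h2
    exact hH0 h2.symm
  have hcH : (starRingEnd ℂ) H.det ≠ 0 := fun h0 => by
    rw [h0, mul_zero] at h2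
    exact hH0 h2.symm
  rw [map_div₀, div_eq_div_iff hcH hH0]
  apply mul_left_cancel₀ hu0
  linear_combination H.det * h1 - e B.det * h2

/-- the conjugate embedding -/
lemma bet_cj (hz : (z : F) * z = -1 - z) (hL : HL L' Ω) (hH : BetB L' hz c e k H) :
    BetB L' hz c ((starRingEnd ℂ).comp e) k (H.map (starRingEnd ℂ)) := by
  refine ⟨fun i j => lat_conj hL (hH.mem i j), ?_, ?_⟩
  · rw [det_map_conj]
    exact hH.unit.map (starRingEnd ℂ)
  · have h1 := congrArg (fun M : Matrix (Fin n) (Fin n) ℂ => M.map (starRingEnd ℂ)) hH.inv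
    simp only [Matrix.map_mul, Matrix.map_map] at h1
    rw [Matrix.map_map]
    exact h1

lemma z_or (hz : z * z = -1 - z) (e : F →+* ℂ) :
    e (z : F) = w ∨ e (z : F) = (starRingEnd ℂ) w := by
  have h1 : (e (z : F) - w) * (e (z : F) - (starRingEnd ℂ) w) = 0 := by
    have h2 := congrArg e (coe_z hz)
    rw [map_mul, map_sub, map_neg, map_one] at h2
    rw [Pool.Agent.Y688.conj_w]
    linear_combination h2 - Pool.Agent.Y688.w_sq
  rcases mul_eq_zero.1 h1 with h | h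
  · exact Or.inl (sub_eq_zero.1 h)
  · exact Or.inr (sub_eq_zero.1 h)

/-- the action of an automorphism of the complex numbers which fixes the cube roots of unity -/
lemma q_fix (hz : z * z = -1 - z) (hc : Coc z c) (hL : HL L' Ω)
    (hB : LieB (coe_z hz) c B) (hH : BetB L' (coe_z hz) c e k H) {σ : ℂ ≃+* ℂ} (hw : σ w = w)
    (he : e z = (starRingEnd ℂ) w) {g : Gal(F/ℚ)} (hg : ∀ y, e (g y) = σ (e y)) :
    σ (Ω ^ n * (e B.det / H.det)) = toC (c g).det * (Ω ^ n * (e B.det / H.det)) := by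
  have h4 := lie_act (coe_z hz) hB e g
  rw [hg, e_hom _ he] at h4
  have h5 := hc.unit g
  have hH0 : H.det ≠ 0 := hH.unit.ne_zero
  obtain ⟨r, hr'⟩ := det_lat hL hH.mem
  have hΩn : Ω ^ n ≠ 0 := pow_ne_zero _ hL.ne
  have hr0 : (r : ℂ) ≠ 0 := fun h0 => hH0 (by rw [hr', h0, mul_zero])
  have e1 : Ω ^ n * (e B.det / H.det) = e B.det / r := by
    rw [hr']
    field_simp
  have h7 : σ (e B.det) = toC (c g).det * e B.det := by
    linear_combination toC (c g).det * h4 - σ (e B.det) * h5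
  rw [e1, map_div₀, fix_RR' hw, h7, mul_div_assoc]

end per

/-! ### the normalised values -/

section main
variable {f : ℕ} [NeZero f] {e : F →+* ℂ} {k : Gal(F/ℚ)} {B : Matrix (Fin n) (Fin n) F}
  {H : Matrix (Fin n) (Fin n) ℂ} {L' : PeriodPair} {Ω : ℂ}

/-- the normalised value -/
noncomputable def Zv (ι : RR →+* 𝓞 (fixedField (CC z)))
    (wo : HeightOneSpectrum (𝓞 ℚ) → HeightOneSpectrum (𝓞 F))
    (c : Gal(F/ℚ) → Matrix (Fin n) (Fin n) Ei) (q : ℂ) (χ : DirichletCharacter ℂ f)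
    (ψ : Gal(F/ℚ) →* ℂˣ) : ℂ := gaussSum χ⁻¹ stdAddChar ^ n * Yv ι wo c ψ * q

theorem Zv_fix (hf : Fam L) (hr : Rays L) (hz : z * z = -1 - z)
    {ι : RR →+* 𝓞 (fixedField (CC z))}
    (hι : algebraMap (𝓞 (fixedField (CC z))) (𝓞 F) (ι wR) = -1 - z) (hc : Coc z c)
    (hL : HL L' Ω) (hB : LieB (coe_z hz) c B) (hH : BetB L' (coe_z hz) c e k H)
    (he : e z = (starRingEnd ℂ) w) {χ : DirichletCharacter ℂ f} {ψ : Gal(F/ℚ) →* ℂˣ}
    (h : Cor ψ χ) {σ : ℂ ≃+* ℂ} (hw : σ w = w) :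
    Zv ι wo c (e B.det / H.det) (χ.ringHomComp (σ : ℂ →+* ℂ)) (cψ (σ : ℂ →+* ℂ) ψ) =
      σ (Zv ι wo c (e B.det / H.det) χ ψ) := by
  obtain ⟨g, hg⟩ := exists_aut (K := ℚ) e ((σ : ℂ →+* ℂ).comp e) fun x => by
    rw [eq_ratCast, map_ratCast, map_ratCast]
  have hg' : ∀ t, e (g t) = σ (e t) := fun t => (hg t).symm
  obtain ⟨a, ha⟩ := exists_shift (f := f) σ
  have h1 := h.gal hg' ha
  have h2 := gauss_aut χ ha
  have h3 := Yv_eqv (wo := wo) hf hr hz hι hc hL hw he hg' ψ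
  have h4 := q_fix hz hc hL hB hH hw he hg'
  have hΩn : Ω ^ n ≠ 0 := pow_ne_zero _ hL.ne
  unfold Zv
  set G := gaussSum χ⁻¹ (stdAddChar (N := f)) with hG
  set G' := gaussSum (χ.ringHomComp (σ : ℂ →+* ℂ))⁻¹ (stdAddChar (N := f)) with hG'
  set Y := Yv ι wo c ψ with hY
  set Y' := Yv ι wo c (cψ (σ : ℂ →+* ℂ) ψ) with hY'
  set q := e B.det / H.det with hq
  have e1 : G ^ n * Y * q = G ^ n * (Y / Ω ^ n) * (Ω ^ n * q) := by
    field_simp
  have e2 : G' ^ n * Y' * q = G' ^ n * (Y' / Ω ^ n) * (Ω ^ n * q) := by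
    field_simp
  rw [e1, e2, map_mul, map_mul, map_pow, h2, h3, h4, h1, mul_pow]
  ring

theorem Zv_conj (hf : Fam L) (hr : Rays L) (hQ : GoodG ℚ) (hz : z * z = -1 - z)
    {ι : RR →+* 𝓞 (fixedField (CC z))}
    (hι : algebraMap (𝓞 (fixedField (CC z))) (𝓞 F) (ι wR) = -1 - z)
    (hwo : ∀ v, und0 ℚ (wo v) = v) (hc : Coc z c) {x : HeightOneSpectrum (𝓞 ℚ) → Ei}
    (hx : Frd z wo x) (hk : ∀ y, e (k y) = (starRingEnd ℂ) (e y))
    (hB : LieB (coe_z hz) c B) (hH : BetB L' (coe_z hz) c e k H)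
    {χ : DirichletCharacter ℂ f} (hχ : χ.Even) (ψ : Gal(F/ℚ) →* ℂˣ) :
    Zv ι wo c (e B.det / H.det) (χ.ringHomComp (starRingEnd ℂ)) (cψ (starRingEnd ℂ) ψ) =
      (starRingEnd ℂ) (Zv ι wo c (e B.det / H.det) χ ψ) := by
  have h2 := gauss_aut χ (σ := cj) (a := -1) conj_shift
  have h3 : χ (((-1 : (ZMod f)ˣ)) : ZMod f) = 1 := by
    rw [Units.val_neg, Units.val_one]
    exact hχ
  have h4 : cj (1 : ℂ) = 1 := map_one _
  rw [h3, h4, one_mul] at h2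
  have h5 : gaussSum (χ.ringHomComp (starRingEnd ℂ))⁻¹ (stdAddChar (N := f)) =
      (starRingEnd ℂ) (gaussSum χ⁻¹ stdAddChar) := h2.symm
  unfold Zv
  rw [h5, ← Yv_conj hf hr hQ hz hι hwo hc hx, map_mul, map_mul, map_pow, q_real hz hc hk hB hH]

/-- **the normalised values and all the automorphisms of the complex numbers** -/
theorem Zv_all (hf : Fam L) (hr : Rays L) (hQ : GoodG ℚ) (hz : z * z = -1 - z)
    {ι : RR →+* 𝓞 (fixedField (CC z))}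
    (hι : algebraMap (𝓞 (fixedField (CC z))) (𝓞 F) (ι wR) = -1 - z)
    (hwo : ∀ v, und0 ℚ (wo v) = v) (hc : Coc z c) {x : HeightOneSpectrum (𝓞 ℚ) → Ei}
    (hx : Frd z wo x) (hL : HL L' Ω) (hk : ∀ y, e (k y) = (starRingEnd ℂ) (e y))
    (hB : LieB (coe_z hz) c B) (hH : BetB L' (coe_z hz) c e k H)
    {χ : DirichletCharacter ℂ f} (hχ : χ.Even) {ψ : Gal(F/ℚ) →* ℂˣ} (h : Cor ψ χ)
    (σ : ℂ ≃+* ℂ) :
    Zv ι wo c (e B.det / H.det) (χ.ringHomComp (σ : ℂ →+* ℂ)) (cψ (σ : ℂ →+* ℂ) ψ) =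
      σ (Zv ι wo c (e B.det / H.det) χ ψ) := by
  -- the embedding
  obtain ⟨e', H', he', hk', hH', hq⟩ : ∃ (e' : F →+* ℂ) (H' : Matrix (Fin n) (Fin n) ℂ),
      e' z = (starRingEnd ℂ) w ∧ (∀ y, e' (k y) = (starRingEnd ℂ) (e' y)) ∧
      BetB L' (coe_z hz) c e' k H' ∧ e B.det / H.det = e' B.det / H'.det := by
    rcases z_or hz e with he | he
    · refine ⟨(starRingEnd ℂ).comp e, H.map (starRingEnd ℂ), by rw [RingHom.comp_apply, he],
        fun y => by rw [RingHom.comp_apply, RingHom.comp_apply, hk], bet_cj (coe_z hz) hL hH, ?_⟩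
      rw [det_map_conj, RingHom.comp_apply, ← map_div₀, q_real hz hc hk hB hH]
    · exact ⟨e, H, he, hk, hH, rfl⟩
  rw [hq]
  rcases σ_w σ with hσ | hσ
  · exact Zv_fix hf hr hz hι hc hL hB hH' he' h hσ
  · -- compose with the complex conjugation
    have hσ' : (cj.trans σ) w = w := by
      show σ ((starRingEnd ℂ) w) = w
      rw [Pool.Agent.Y688.conj_w, map_sub, map_neg, map_one, hσ, Pool.Agent.Y688.conj_w]
      ring
    have h1 := Zv_conj hf hr hQ hz hι hwo hc hx hk' hB hH' hχ ψ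
    have h2 := Zv_fix (wo := wo) hf hr hz hι hc hL hB hH' he'
      (χ := χ.ringHomComp (starRingEnd ℂ)) (ψ := cψ (starRingEnd ℂ) ψ)
      (h.comp (starRingEnd ℂ)) hσ'
    have e1 : (χ.ringHomComp (starRingEnd ℂ)).ringHomComp ((cj.trans σ : ℂ ≃+* ℂ) : ℂ →+* ℂ) =
        χ.ringHomComp (σ : ℂ →+* ℂ) := by
      ext b
      show σ ((starRingEnd ℂ) ((starRingEnd ℂ) (χ b))) = σ (χ b)
      rw [Complex.conj_conj]
    have e2 : cψ ((cj.trans σ : ℂ ≃+* ℂ) : ℂ →+* ℂ) (cψ (starRingEnd ℂ) ψ) =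
        cψ (σ : ℂ →+* ℂ) ψ := by
      ext g
      show σ ((starRingEnd ℂ) ((starRingEnd ℂ) ((ψ g : ℂˣ) : ℂ))) = σ ((ψ g : ℂˣ) : ℂ)
      rw [Complex.conj_conj]
    rw [e1, e2, h1] at h2
    rw [h2]
    show σ ((starRingEnd ℂ) ((starRingEnd ℂ) _)) = _
    rw [Complex.conj_conj]

end main

end

end Pool.Agent.H508.U
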