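import Pool.Agent.H508.U.A3

/-!
# The Euler product without the primes of the conductor, the field of the values
-/

set_option autoImplicit false
set_option linter.unusedSectionVars false
set_option linter.style.haveILetI false

open Complex NumberField IsDedekindDomain

namespace Pool.Agent.H508.U

open Pool.Agent.K7.H70.EQ (HH)
open Pool.Agent.K7.H70.SE (GoodG)
open Pool.Agent.Y696 (nK und0)
open Pool.Agent.Y688 (RR wR w wR_coe HL)
open Pool.Agent.K7.H70.AW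
open Pool.Agent.K7.H70.TW (Fam)
open Pool.Agent.K7.H65.FP (fx toC' toC'_apply galE galE_pos galE_neg)
open Pool.Agent.Y692.QS (toC Ei nr toC_normSq toC_apply hom hom_apply wC)
open IntermediateField (fixedField)
open Pool.Agent.H508.D
open Pool.Agent.H508.R
open ZMod (stdAddChar)
open scoped Classical Matrix

section fixed

/-- an embedding of a number field extends to an automorphism of the complex numbers -/
lemma ext_aut (K₀ : IntermediateField ℚ ℂ) [FiniteDimensional ℚ K₀] (τ : K₀ →+* ℂ) :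
    ∃ σ : ℂ ≃+* ℂ, ∀ x : K₀, σ x = τ x := by
  let 𝔽 : IntermediateField ℚ ℂ := IntermediateField.normalClosure ℚ K₀ ℂ
  have hle : K₀ ≤ 𝔽 := IntermediateField.le_normalClosure K₀
  have hnc : IsNormalClosure ℚ K₀ 𝔽 := Algebra.IsAlgebraic.isNormalClosure_normalClosure
    fun x => IsAlgClosed.splits _
  have hn : Normal ℚ 𝔽 := IsNormalClosure.normal (K := K₀)
  have hfd : FiniteDimensional ℚ 𝔽 := inferInstance
  let _ : Algebra K₀ 𝔽 := (IntermediateField.inclusion hle).toRingHom.toAlgebra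
  have _ : IsScalarTower ℚ K₀ 𝔽 := IsScalarTower.of_algebraMap_eq fun x => by
    exact ((IntermediateField.inclusion hle).commutes x).symm
  have _ : Algebra.IsAlgebraic K₀ 𝔽 := Algebra.IsAlgebraic.tower_top (K := ℚ) K₀
  obtain ⟨τ', hτ'⟩ := exists_ext (M := K₀) (F := 𝔽) τ
  obtain ⟨g, hg⟩ := exists_aut (K := ℚ) (F := 𝔽) (algebraMap 𝔽 ℂ) τ' fun x => by
    rw [eq_ratCast, map_ratCast, map_ratCast]
  obtain ⟨σ, hσ⟩ := Pool.Agent.H977R3.CM.exists_aut (algebraMap 𝔽 ℂ) g.toRingEquiv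
  refine ⟨σ, fun x => ?_⟩
  rw [← hτ' x, hg]
  exact hσ (algebraMap K₀ 𝔽 x)

/-- the numbers fixed by the automorphisms over a number field -/
theorem mem_of_fixed (K₀ : IntermediateField ℚ ℂ) [FiniteDimensional ℚ K₀] {x : ℂ}
    (h : ∀ σ : ℂ ≃+* ℂ, (∀ y ∈ K₀, σ y = y) → σ x = x) : x ∈ K₀ := by
  have hnf : NumberField K₀ := ⟨⟩
  choose s hs using fun τ : K₀ →+* ℂ => ext_aut K₀ τ
  obtain ⟨l, hl⟩ := descent (T := K₀) (z := fun τ => s τ x) fun σ τ => by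
    have h1 := h ((s ((σ : ℂ →+* ℂ).comp τ)).trans ((s τ).trans σ).symm) fun y hy => by
      rw [RingEquiv.trans_apply, RingEquiv.symm_apply_eq, RingEquiv.trans_apply]
      have h2 := hs ((σ : ℂ →+* ℂ).comp τ) ⟨y, hy⟩
      have h3 := hs τ ⟨y, hy⟩
      have h2' : s ((σ : ℂ →+* ℂ).comp τ) y = σ (τ ⟨y, hy⟩) := h2
      have h3' : s τ y = τ ⟨y, hy⟩ := h3
      rw [h2', h3']
    rw [RingEquiv.trans_apply, RingEquiv.symm_apply_eq, RingEquiv.trans_apply] at h1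
    exact h1
  have h1 := hl (algebraMap K₀ ℂ)
  have h2 := h (s (algebraMap K₀ ℂ)) fun y hy => hs (algebraMap K₀ ℂ) ⟨y, hy⟩
  rw [h2] at h1
  rw [h1]
  exact l.2

end fixed

section chars
variable {F : Type} [Field F] [NumberField F] {f : ℕ} [NeZero f]

/-- the values of the character of the Galois group are values of the Dirichlet character -/
lemma Cor.exists_unit [IsGalois ℚ F] {ψ : Gal(F/ℚ) →* ℂˣ} {χ : DirichletCharacter ℂ f}
    (h : Cor ψ χ) (g : Gal(F/ℚ)) : ∃ a : ZMod f, ((ψ g : ℂˣ) : ℂ) = χ a := by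
  obtain ⟨e⟩ : Nonempty (F →+* ℂ) := inferInstance
  obtain ⟨σ, hσ⟩ := Pool.Agent.H977R3.CM.exists_aut e g.toRingEquiv
  obtain ⟨a, ha⟩ := exists_shift (f := f) σ
  exact ⟨a, h.gal (fun x => (hσ x).symm) ha⟩

lemma Cor.fix [IsGalois ℚ F] {ψ : Gal(F/ℚ) →* ℂˣ} {χ : DirichletCharacter ℂ f} (h : Cor ψ χ)
    {σ : ℂ →+* ℂ} (hσ : ∀ a, σ (χ a) = χ a) : cψ σ ψ = ψ ∧ χ.ringHomComp σ = χ := by
  constructor
  · ext g
    obtain ⟨a, ha⟩ := h.exists_unit g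
    rw [cψ_coe, ha, hσ]
  · ext a
    rw [MulChar.ringHomComp_apply, hσ]

lemma Cor.unique [IsGalois ℚ F] {ψ ψ' : Gal(F/ℚ) →* ℂˣ} {χ : DirichletCharacter ℂ f} (h : Cor ψ χ)
    (h' : Cor ψ' χ) : ψ = ψ' := by
  ext g
  obtain ⟨e⟩ : Nonempty (F →+* ℂ) := inferInstance
  obtain ⟨σ, hσ⟩ := Pool.Agent.H977R3.CM.exists_aut e g.toRingEquiv
  obtain ⟨a, ha⟩ := exists_shift (f := f) σ
  rw [h.gal (fun x => (hσ x).symm) ha, h'.gal (fun x => (hσ x).symm) ha]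

/-- the field of the values -/
instance fd_val (χ : DirichletCharacter ℂ f) :
    FiniteDimensional ℚ (IntermediateField.adjoin ℚ (Set.range fun a : ZMod f => χ a)) := by
  have hfin : Finite (Set.range fun a : ZMod f => χ a) := Set.finite_range _
  refine IntermediateField.finiteDimensional_adjoin ?_
  rintro _ ⟨a, rfl⟩
  by_cases ha : IsUnit a
  · obtain ⟨u, rfl⟩ := ha
    have h1 : (χ (u : ZMod f)) ^ Fintype.card (ZMod f)ˣ = 1 := by
      rw [← map_pow, ← Units.val_pow_eq_pow_val, pow_card_eq_one, Units.val_one, map_one]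
    refine ⟨Polynomial.X ^ Fintype.card (ZMod f)ˣ - 1,
      Polynomial.monic_X_pow_sub_C 1 Fintype.card_ne_zero, ?_⟩
    rw [Polynomial.eval₂_sub, Polynomial.eval₂_pow, Polynomial.eval₂_X, Polynomial.eval₂_one]
    exact sub_eq_zero.2 h1
  · show IsIntegral ℚ (χ a)
    rw [MulChar.map_nonunit χ ha]
    exact isIntegral_zero

end chars

section
variable {F : Type} [Field F] [NumberField F] {n : ℕ} {z : 𝓞 F}

/-- the primes of the conductor -/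
lemma fin_cond {f : ℕ} (hf : f ≠ 0) :
    {v : HeightOneSpectrum (𝓞 ℚ) | (f : 𝓞 ℚ) ∈ v.asIdeal}.Finite := by
  have hI : (Ideal.span {(f : 𝓞 ℚ)}) ≠ 0 := by
    rw [Ne, Ideal.zero_eq_bot, Ideal.span_singleton_eq_bot]
    exact_mod_cast hf
  refine (Ideal.finite_factors hI).subset fun v hv => ?_
  rw [Set.mem_ofPred_eq, Ideal.dvd_span_singleton]
  exact hv

/-- the local factor of the twist without the primes of the conductor -/
noncomputable def fC (f : ℕ) (A B : Gal(F/ℚ) → Matrix (Fin n) (Fin n) ℂ) (u : ℂ) (x : Ei)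
    (v : HeightOneSpectrum (𝓞 ℚ)) (W : HeightOneSpectrum (𝓞 F)) (s : ℂ) : ℂ :=
  if (f : 𝓞 ℚ) ∈ v.asIdeal then 1 else (pl A B x v W (u * (nK v : ℂ) ^ (-s)))⁻¹

/-- the correction -/
noncomputable def corr {f : ℕ} (hf : f ≠ 0) (A B : Gal(F/ℚ) → Matrix (Fin n) (Fin n) ℂ)
    (x : HeightOneSpectrum (𝓞 ℚ) → Ei) (wo : HeightOneSpectrum (𝓞 ℚ) → HeightOneSpectrum (𝓞 F))
    (s : ℂ) : ℂ := ∏ v ∈ (fin_cond hf).toFinset, pl A B (x v) v (wo v) ((nK v : ℂ) ^ (-s))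

lemma corr_diff {f : ℕ} (hf : f ≠ 0) (A B : Gal(F/ℚ) → Matrix (Fin n) (Fin n) ℂ)
    (x : HeightOneSpectrum (𝓞 ℚ) → Ei) (wo : HeightOneSpectrum (𝓞 ℚ) → HeightOneSpectrum (𝓞 F)) :
    Differentiable ℂ (corr hf A B x wo) := by
  unfold corr
  refine Differentiable.fun_finsetProd fun v _ => ?_
  have h1 := pl_diff A B (x v) v (wo v) 1
  simpa only [one_mul] using h1

lemma q_lt (v : HeightOneSpectrum (𝓞 ℚ)) {s : ℂ} (hs : 1 / 2 < s.re) :
    (nK v : ℝ) * ‖(nK v : ℂ) ^ (-s)‖ ^ 2 < 1 := by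
  have h2 : 1 < (nK v : ℝ) := by exact_mod_cast (nK_rat v).one_lt
  have h0 : (0 : ℝ) < nK v := by linarith
  rw [Complex.norm_natCast_cpow_of_pos (nK_rat v).pos, ← Real.rpow_natCast, ← Real.rpow_mul h0.le]
  have h3 : (nK v : ℝ) * (nK v : ℝ) ^ ((-s).re * ((2 : ℕ) : ℝ)) =
      (nK v : ℝ) ^ (1 + (-s).re * ((2 : ℕ) : ℝ)) := by
    rw [Real.rpow_add h0, Real.rpow_one]
  rw [h3]
  refine Real.rpow_lt_one_of_one_lt_of_neg h2 ?_
  rw [Complex.neg_re]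
  push_cast
  linarith

variable [IsGalois ℚ F]

/-- the local factors are not zero -/
lemma pl_ne' (hz : z * z = -1 - z) {A B : Gal(F/ℚ) → Matrix (Fin n) (Fin n) ℂ}
    (S : SemiM (fx z) A B) {x : HeightOneSpectrum (𝓞 ℚ) → Ei}
    {wo : HeightOneSpectrum (𝓞 ℚ) → HeightOneSpectrum (𝓞 F)} (hwo : ∀ v, und0 ℚ (wo v) = v)
    (hx : Frd z wo x) (v : HeightOneSpectrum (𝓞 ℚ)) {s : ℂ} (hs : 1 / 2 < s.re) :
    pl A B (x v) v (wo v) ((nK v : ℂ) ^ (-s)) ≠ 0 :=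
  pl_ne hz S (hwo v) (fun h3 hq => (hx.sp v h3 hq).1) (q_lt v hs)

lemma corr_ne {f : ℕ} (hf : f ≠ 0) (hz : z * z = -1 - z)
    {A B : Gal(F/ℚ) → Matrix (Fin n) (Fin n) ℂ} (S : SemiM (fx z) A B)
    {x : HeightOneSpectrum (𝓞 ℚ) → Ei} {wo : HeightOneSpectrum (𝓞 ℚ) → HeightOneSpectrum (𝓞 F)}
    (hwo : ∀ v, und0 ℚ (wo v) = v) (hx : Frd z wo x) : corr hf A B x wo 1 ≠ 0 :=
  Finset.prod_ne_zero_iff.2 fun v _ => pl_ne' hz S hwo hx v (by norm_num)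

/-- **the Euler product without the primes of the conductor** -/
theorem prod_corr {f : ℕ} (hf : f ≠ 0) (hz : z * z = -1 - z) {c : Gal(F/ℚ) → Matrix (Fin n) (Fin n) Ei}
    (hc : Coc z c) {ψ : Gal(F/ℚ) →* ℂˣ} {χ : DirichletCharacter ℂ f} (h : Cor ψ χ)
    {x : HeightOneSpectrum (𝓞 ℚ) → Ei} {wo : HeightOneSpectrum (𝓞 ℚ) → HeightOneSpectrum (𝓞 F)}
    (hwo : ∀ v, und0 ℚ (wo v) = v) (hx : Frd z wo x) {s Φ : ℂ} (hs : s ∈ HH)
    (hP : HasProd (fun v => fm (tA c ψ) (tB c ψ) (x v) v (wo v) s) Φ) :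
    HasProd (fun v : HeightOneSpectrum (𝓞 ℚ) =>
      fC f (fun σ => (c σ).map toC) (fun σ => (c σ).map toC') (χ (nK v : ZMod f)) (x v) v (wo v) s)
      (Φ * corr hf (tA c ψ) (tB c ψ) x wo s) := by
  have hs' : 1 / 2 < s.re := by
    have h1 : (3 / 2 : ℝ) < s.re := hs
    linarith
  have h1 : HasProd (fun v : HeightOneSpectrum (𝓞 ℚ) => if (f : 𝓞 ℚ) ∈ v.asIdeal then
      pl (tA c ψ) (tB c ψ) (x v) v (wo v) ((nK v : ℂ) ^ (-s)) else 1)
      (corr hf (tA c ψ) (tB c ψ) x wo s) := by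
    have h2 := hasProd_prod_of_ne_finset_one (s := (fin_cond hf).toFinset)
      (f := fun v : HeightOneSpectrum (𝓞 ℚ) => if (f : 𝓞 ℚ) ∈ v.asIdeal then
        pl (tA c ψ) (tB c ψ) (x v) v (wo v) ((nK v : ℂ) ^ (-s)) else 1) (fun v hv => by
        rw [Set.Finite.mem_toFinset] at hv
        exact if_neg hv) (L := SummationFilter.unconditional _)
    have h3 : ∏ v ∈ (fin_cond hf).toFinset, (if (f : 𝓞 ℚ) ∈ v.asIdeal then
        pl (tA c ψ) (tB c ψ) (x v) v (wo v) ((nK v : ℂ) ^ (-s)) else 1) =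
        corr hf (tA c ψ) (tB c ψ) x wo s := by
      unfold corr
      refine Finset.prod_congr rfl fun v hv => ?_
      rw [Set.Finite.mem_toFinset] at hv
      exact if_pos hv
    rw [h3] at h2
    exact h2
  refine (hP.mul h1).congr_fun fun v => ?_
  unfold fC
  rw [fm_pl]
  by_cases hv : (f : 𝓞 ℚ) ∈ v.asIdeal
  · rw [if_pos hv, if_pos hv, inv_mul_cancel₀ (pl_ne' hz (tS hz hc ψ) hwo hx v hs')]
  · rw [if_neg hv, if_neg hv, mul_one]
    congr 1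
    have hψ : ∀ σ, Frb v (wo v) σ → ((ψ σ : ℂˣ) : ℂ) = χ (nK v : ZMod f) :=
      h.fr v (wo v) (hwo v) hv
    exact (pl_smul (fun σ hσ => by
      show ((ψ σ : ℂˣ) : ℂ) • (c σ).map toC = _
      rw [hψ σ hσ]) (fun σ hσ => by
      show ((ψ σ : ℂˣ) : ℂ) • (c σ).map toC' = _
      rw [hψ σ hσ]) _).symm

/-- the correction and the automorphisms -/
theorem corr_all {f : ℕ} (hf : f ≠ 0) (c : Gal(F/ℚ) → Matrix (Fin n) (Fin n) Ei)
    (ψ : Gal(F/ℚ) →* ℂˣ) (x : HeightOneSpectrum (𝓞 ℚ) → Ei)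
    (wo : HeightOneSpectrum (𝓞 ℚ) → HeightOneSpectrum (𝓞 F)) (σ : ℂ ≃+* ℂ) :
    corr hf (tA c (cψ (σ : ℂ →+* ℂ) ψ)) (tB c (cψ (σ : ℂ →+* ℂ) ψ)) x wo 1 =
      σ (corr hf (tA c ψ) (tB c ψ) x wo 1) := by
  have hfix : ∀ (σ : ℂ ≃+* ℂ), σ w = w → ∀ ψ : Gal(F/ℚ) →* ℂˣ,
      corr hf (tA c (cψ (σ : ℂ →+* ℂ) ψ)) (tB c (cψ (σ : ℂ →+* ℂ) ψ)) x wo 1 =
      σ (corr hf (tA c ψ) (tB c ψ) x wo 1) := by
    intro σ hσ ψ
    unfold corr
    rw [map_prod]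
    refine Finset.prod_congr rfl fun v _ => ?_
    rw [pl_fix hσ, tA_fix hσ, tB_fix hσ, Complex.cpow_neg_one, map_inv₀, map_natCast]
  have hconj : ∀ ψ : Gal(F/ℚ) →* ℂˣ,
      corr hf (tA c (cψ (starRingEnd ℂ) ψ)) (tB c (cψ (starRingEnd ℂ) ψ)) x wo 1 =
      (starRingEnd ℂ) (corr hf (tA c ψ) (tB c ψ) x wo 1) := by
    intro ψ
    unfold corr
    rw [map_prod]
    refine Finset.prod_congr rfl fun v _ => ?_
    rw [pl_conj, ← funext (tA_conj (c := c) ψ), ← funext (tB_conj (c := c) ψ), Complex.cpow_neg_one,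
      map_inv₀, Complex.conj_natCast]
  rcases σ_w σ with hσ | hσ
  · exact hfix σ hσ ψ
  · have hσ' : (cj.trans σ) w = w := by
      show σ ((starRingEnd ℂ) w) = w
      rw [Pool.Agent.Y688.conj_w, map_sub, map_neg, map_one, hσ, Pool.Agent.Y688.conj_w]
      ring
    have h2 := hfix (cj.trans σ) hσ' (cψ (starRingEnd ℂ) ψ)
    have e2 : cψ ((cj.trans σ : ℂ ≃+* ℂ) : ℂ →+* ℂ) (cψ (starRingEnd ℂ) ψ) =
        cψ (σ : ℂ →+* ℂ) ψ := by
      ext g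
      show σ ((starRingEnd ℂ) ((starRingEnd ℂ) ((ψ g : ℂˣ) : ℂ))) = σ ((ψ g : ℂˣ) : ℂ)
      rw [Complex.conj_conj]
    rw [e2, hconj] at h2
    rw [h2]
    show σ ((starRingEnd ℂ) ((starRingEnd ℂ) _)) = _
    rw [Complex.conj_conj]

end

end Pool.Agent.H508.U
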