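import Pool.Agent.H508.U.A4

/-!
# The twists of the abelian varieties
-/

set_option autoImplicit false
set_option linter.unusedSectionVars false
set_option linter.style.haveILetI false

open Complex NumberField IsDedekindDomain

namespace Pool.Agent.H508.U

open Pool.Agent.K7.H70.EQ (HH)
open Pool.Agent.K7.H70.SE (GoodG)
open Pool.Agent.Y696 (nK und0)
open Pool.Agent.Y688 (RR wR w wR_coe HL)
open Pool.Agent.K7.H70.AW
open Pool.Agent.K7.H70.TW (Fam)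
open Pool.Agent.K7.H65.FP (fx toC' toC'_apply galE galE_pos galE_neg)
open Pool.Agent.Y692.QS (toC Ei nr toC_normSq toC_apply hom hom_apply wC)
open IntermediateField (fixedField)
open Pool.Agent.H508.D
open Pool.Agent.H508.R
open ZMod (stdAddChar)
open scoped Classical Matrix

section
variable {F L : Type} [Field F] [NumberField F] [IsGalois ℚ F] [Field L] [NumberField L]
  [Algebra F L] {z : 𝓞 F} {n : ℕ} {c : Gal(F/ℚ) → Matrix (Fin n) (Fin n) Ei}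
  {wo : HeightOneSpectrum (𝓞 ℚ) → HeightOneSpectrum (𝓞 F)}

/-- **the functions of the twists** -/
theorem twist_main (hf : Fam L) (hr : Rays L) (hQ : GoodG ℚ) (hz : z * z = -1 - z)
    (hwo : ∀ v, und0 ℚ (wo v) = v) (hc : Coc z c) {x : HeightOneSpectrum (𝓞 ℚ) → Ei}
    (hx : Frd z wo x) (f : ℕ) [NeZero f] :
    ∃ Φ : DirichletCharacter ℂ f → ℂ → ℂ, ∀ χ : DirichletCharacter ℂ f,
      (∃ ψ : Gal(F/ℚ) →* ℂˣ, Cor ψ χ) →
        MeromorphicOn (Φ χ) Set.univ ∧ AnalyticAt ℂ (Φ χ) 1 ∧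
        (∀ s ∈ HH, HasProd (fun v : HeightOneSpectrum (𝓞 ℚ) =>
          fC f (fun σ => (c σ).map toC) (fun σ => (c σ).map toC') (χ (nK v : ZMod f)) (x v) v
            (wo v) s) (Φ χ s)) ∧ Φ χ 1 ≠ 0 ∧
        (χ.Even → ∀ (L' : PeriodPair) (Ω : ℂ), HL L' Ω → ∀ (e : F →+* ℂ) (k : Gal(F/ℚ)),
          (∀ y, e (k y) = (starRingEnd ℂ) (e y)) → ∀ (B : Matrix (Fin n) (Fin n) F)
          (H : Matrix (Fin n) (Fin n) ℂ), LieB (coe_z hz) c B → BetB L' (coe_z hz) c e k H →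
          gaussSum χ⁻¹ stdAddChar ^ n * Φ χ 1 * (e B.det / H.det) ∈
            IntermediateField.adjoin ℚ (Set.range fun a : ZMod f => χ a) ∧
          ∀ σ : ℂ ≃+* ℂ, σ (gaussSum χ⁻¹ stdAddChar ^ n * Φ χ 1 * (e B.det / H.det)) =
            gaussSum (χ.ringHomComp (σ : ℂ →+* ℂ))⁻¹ stdAddChar ^ n *
              Φ (χ.ringHomComp (σ : ℂ →+* ℂ)) 1 * (e B.det / H.det)) := by
  obtain ⟨ι, hι⟩ := exists_io hz
  have hf0 : f ≠ 0 := NeZero.ne f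
  choose Ψ h1 h2 h3 h4 h5 using fun ψ : Gal(F/ℚ) →* ℂˣ =>
    mat_main hf hr hQ hz hι hwo (tS hz hc ψ) hx
  let ch : DirichletCharacter ℂ f → (Gal(F/ℚ) →* ℂˣ) := fun χ =>
    if h : ∃ ψ : Gal(F/ℚ) →* ℂˣ, Cor ψ χ then h.choose else 1
  have hch : ∀ (χ : DirichletCharacter ℂ f) (ψ : Gal(F/ℚ) →* ℂˣ), Cor ψ χ → ch χ = ψ :=
    fun χ ψ h => by
    have hex : ∃ ψ : Gal(F/ℚ) →* ℂˣ, Cor ψ χ := ⟨ψ, h⟩
    show (if h : ∃ ψ : Gal(F/ℚ) →* ℂˣ, Cor ψ χ then h.choose else 1) = ψ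
    rw [dif_pos hex]
    exact hex.choose_spec.unique h
  refine ⟨fun χ s => Ψ (ch χ) s * corr hf0 (tA c (ch χ)) (tB c (ch χ)) x wo s, fun χ hχ => ?_⟩
  obtain ⟨ψ, hψ⟩ := hχ
  have hcd : Differentiable ℂ (corr hf0 (tA c ψ) (tB c ψ) x wo) := corr_diff hf0 _ _ _ _
  have hca : ∀ s, AnalyticAt ℂ (corr hf0 (tA c ψ) (tB c ψ) x wo) s := fun s =>
    hcd.analyticAt s
  have hval : ∀ (χ : DirichletCharacter ℂ f) (ψ : Gal(F/ℚ) →* ℂˣ), Cor ψ χ → ∀ q : ℂ,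
      gaussSum χ⁻¹ stdAddChar ^ n * (Ψ (ch χ) 1 * corr hf0 (tA c (ch χ)) (tB c (ch χ)) x wo 1) * q =
      Zv ι wo c q χ ψ * corr hf0 (tA c ψ) (tB c ψ) x wo 1 := fun χ ψ h q => by
    rw [hch χ ψ h, h5]
    unfold Zv Yv
    ring
  beta_reduce
  refine ⟨?_, ?_, ?_, ?_, ?_⟩
  · rw [hch χ ψ hψ]
    exact fun s hs => (h1 ψ s hs).mul (hca s).meromorphicAt
  · rw [hch χ ψ hψ]
    exact (h2 ψ).mul (hca 1)
  · intro s hs
    rw [hch χ ψ hψ]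
    exact prod_corr hf0 hz hc hψ hwo hx hs (h3 ψ s hs)
  · rw [hch χ ψ hψ]
    exact mul_ne_zero (h4 ψ) (corr_ne hf0 hz (tS hz hc ψ) hwo hx)
  · intro hev L' Ω hL e k hk B H hB hH
    have key : ∀ σ : ℂ ≃+* ℂ, σ (Zv ι wo c (e B.det / H.det) χ ψ *
        corr hf0 (tA c ψ) (tB c ψ) x wo 1) =
        Zv ι wo c (e B.det / H.det) (χ.ringHomComp (σ : ℂ →+* ℂ)) (cψ (σ : ℂ →+* ℂ) ψ) *
          corr hf0 (tA c (cψ (σ : ℂ →+* ℂ) ψ)) (tB c (cψ (σ : ℂ →+* ℂ) ψ)) x wo 1 := fun σ => by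
      rw [Zv_all hf hr hQ hz hι hwo hc hx hL hk hB hH hev hψ σ, corr_all, map_mul]
    constructor
    · rw [hval χ ψ hψ]
      refine mem_of_fixed _ fun σ hσ => ?_
      obtain ⟨e1, e2⟩ := hψ.fix (σ := (σ : ℂ →+* ℂ)) fun a =>
        hσ _ (IntermediateField.subset_adjoin ℚ _ ⟨a, rfl⟩)
      rw [key, e1, e2]
    · intro σ
      rw [hval χ ψ hψ, hval _ _ (hψ.comp (σ : ℂ →+* ℂ))]
      exact key σ

end

end Pool.Agent.H508.U
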